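import Pool.Agent.N728.QL.Def

set_option autoImplicit false

namespace Pool.Agent.N340.QL

open Finset Pool.Agent.N728.QL

lemma card_class (m : ℕ) (hm : 0 < m) (U1 U2 v : ℕ) (h : U1 ≤ U2) :
    (((Ioc U1 U2).filter (fun u => u ≡ v [MOD m])).card : ℝ) ≤ ((U2 : ℝ) - U1) / m + 1 := by
  have e := Nat.Ioc_filter_modEq_card U1 U2 hm v
  have e2 : (((((Ioc U1 U2).filter (fun u => u ≡ v [MOD m])).card : ℤ) : ℚ)) ≤ ((U2 : ℚ) - U1) / m + 1 := by
    rw [e]
    have hm' : (0 : ℚ) < m := by exact_mod_cast hm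
    have hU : (U1 : ℚ) ≤ U2 := by exact_mod_cast h
    have h0 : (0 : ℚ) ≤ ((U2 : ℚ) - U1) / m + 1 := by
      have : (0 : ℚ) ≤ ((U2 : ℚ) - U1) / m := div_nonneg (by linarith) hm'.le
      linarith
    push_cast
    refine max_le ?_ h0
    have h1 := Int.floor_le (((U2 : ℚ) - v) / m)
    have h2 := Int.lt_floor_add_one (((U1 : ℚ) - v) / m)
    have h3 : ((U2 : ℚ) - v) / m - ((U1 : ℚ) - v) / m = ((U2 : ℚ) - U1) / m := by
      rw [← sub_div]; congr 1; ring
    linarith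
  have e3 : ((((((Ioc U1 U2).filter (fun u => u ≡ v [MOD m])).card : ℤ) : ℚ)) : ℝ) ≤
      ((((U2 : ℚ) - U1) / m + 1 : ℚ) : ℝ) := by exact_mod_cast e2
  push_cast at e3
  exact e3

lemma card_le (q D : ℕ) (hq : 0 < q) (hD : 0 < D) (hc : Nat.Coprime q D) (U1 U2 u0 : ℕ) (h : U1 ≤ U2) :
    (((Ioc U1 U2).filter (fun u => u ≡ u0 [MOD q] ∧ D ∣ u)).card : ℝ) ≤
      ((U2 : ℝ) - U1) / (D * q) + 1 := by
  have h0 : (0 : ℝ) ≤ ((U2 : ℝ) - U1) / (D * q) + 1 := by
    have : (U1 : ℝ) ≤ U2 := by exact_mod_cast h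
    have : (0 : ℝ) ≤ ((U2 : ℝ) - U1) / (D * q) := div_nonneg (by linarith) (by positivity)
    linarith
  rcases ((Ioc U1 U2).filter (fun u => u ≡ u0 [MOD q] ∧ D ∣ u)).eq_empty_or_nonempty with he | ⟨v, hv⟩
  · rw [he]; simpa using h0
  · rw [mem_filter] at hv
    have hsub : (Ioc U1 U2).filter (fun u => u ≡ u0 [MOD q] ∧ D ∣ u) ⊆
        (Ioc U1 U2).filter (fun u => u ≡ v [MOD (q * D)]) := by
      intro u hu
      rw [mem_filter] at hu ⊢
      refine ⟨hu.1, ?_⟩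
      rw [← Nat.modEq_and_modEq_iff_modEq_mul hc]
      refine ⟨hu.2.1.trans hv.2.1.symm, ?_⟩
      exact (Nat.modEq_zero_iff_dvd.2 hu.2.2).trans (Nat.modEq_zero_iff_dvd.2 hv.2.2).symm
    have h1 := card_class (q * D) (Nat.mul_pos hq hD) U1 U2 v h
    have h2 : (((Ioc U1 U2).filter (fun u => u ≡ u0 [MOD q] ∧ D ∣ u)).card : ℝ) ≤
        (((Ioc U1 U2).filter (fun u => u ≡ v [MOD (q * D)])).card : ℝ) := by
      exact_mod_cast card_le_card hsub
    refine h2.trans (h1.trans (le_of_eq ?_))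
    push_cast
    rw [mul_comm (D : ℝ)]

lemma sum_tel (z : ℕ) (hz : 2 ≤ z) (N : ℕ) (hN : z ≤ N) :
    ∑ n ∈ Ioc z N, 1 / ((n : ℝ) * (n - 1)) ≤ 1 / z - 1 / N := by
  induction N, hN using Nat.le_induction with
  | base => simp
  | succ N hN ih =>
    have e : Ioc z (N + 1) = insert (N + 1) (Ioc z N) := by
      ext x; simp only [mem_Ioc, mem_insert]; omega
    rw [e, sum_insert (by simp)]
    have hN0 : (0 : ℝ) < N := by exact_mod_cast (by omega : 0 < N)
    have : 1 / (((N + 1 : ℕ) : ℝ) * (((N + 1 : ℕ) : ℝ) - 1)) = 1 / N - 1 / ((N + 1 : ℕ) : ℝ) := by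
      push_cast
      have h1 : (N : ℝ) + 1 ≠ 0 := by linarith
      have h2 : (N : ℝ) ≠ 0 := hN0.ne'
      rw [add_sub_cancel_right]
      field_simp
      ring
    rw [this]
    linarith


/-- the primes in `(z, N]` -/
def Ps (z N : ℕ) : Finset ℕ := (Ioc z N).filter Nat.Prime

lemma prod_bound (z : ℕ) (hz : 2 ≤ z) (N : ℕ) (hN : z ≤ N) :
    ∏ p ∈ Ps z N, (1 + 1 / ((p : ℝ) * (p - 1))) ≤ 1 + 2 / z := by
  have hz0 : (0 : ℝ) < z := by exact_mod_cast (by omega : 0 < z)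
  have hz2 : (2 : ℝ) ≤ z := by exact_mod_cast hz
  have h1 : ∏ p ∈ Ps z N, (1 + 1 / ((p : ℝ) * (p - 1))) ≤
      ∏ p ∈ Ps z N, Real.exp (1 / ((p : ℝ) * (p - 1))) := by
    refine prod_le_prod ?_ ?_
    · intro p hp
      rw [Ps, mem_filter, mem_Ioc] at hp
      have : (2 : ℝ) ≤ p := by exact_mod_cast hp.2.two_le
      have : (0 : ℝ) ≤ 1 / ((p : ℝ) * (p - 1)) := by
        apply div_nonneg zero_le_one (mul_nonneg (by linarith) (by linarith))
      linarith
    · intro p _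
      rw [add_comm]
      exact Real.add_one_le_exp _
  have h2 : ∑ p ∈ Ps z N, 1 / ((p : ℝ) * (p - 1)) ≤ 1 / z := by
    have h3 : ∑ p ∈ Ps z N, 1 / ((p : ℝ) * (p - 1)) ≤ ∑ n ∈ Ioc z N, 1 / ((n : ℝ) * (n - 1)) := by
      refine sum_le_sum_of_subset_of_nonneg (filter_subset _ _) ?_
      intro n hn _
      rw [mem_Ioc] at hn
      have : (2 : ℝ) ≤ n := by exact_mod_cast (by omega : 2 ≤ n)
      apply div_nonneg zero_le_one (mul_nonneg (by linarith) (by linarith))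
    have h4 := sum_tel z hz N hN
    have h5 : (0 : ℝ) ≤ 1 / N := by positivity
    linarith
  have hx1 : (1 / z : ℝ) ≤ 1 / 2 := one_div_le_one_div_of_le (by norm_num) hz2
  have hx0 : (0 : ℝ) ≤ 1 / z := by positivity
  rw [← Real.exp_sum] at h1
  refine h1.trans ((Real.exp_le_exp.2 h2).trans ?_)
  refine (Real.exp_bound_div_one_sub_of_interval hx0 (by linarith)).trans ?_
  rw [div_le_iff₀ (by linarith)]
  have : (2 / z : ℝ) = 2 * (1 / z) := by ring
  rw [this]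
  nlinarith

lemma prod_V (z N : ℕ) :
    ∏ p ∈ Ps z N, (1 + 1 / ((p : ℝ) - 1)) ≤ (VW 0 N)⁻¹ := by
  have h1 : (VW 0 N)⁻¹ = ∏ p ∈ Ps 0 N, (1 + 1 / ((p : ℝ) - 1)) := by
    rw [VW, ← prod_inv_distrib]
    refine prod_congr rfl ?_
    intro p hp
    rw [Ps, mem_filter, mem_Ioc] at hp
    have : (2 : ℝ) ≤ p := by exact_mod_cast hp.2.two_le
    have h0 : (p : ℝ) ≠ 0 := by linarith
    have h1 : (p : ℝ) - 1 ≠ 0 := by linarith
    field_simp
    ring
  rw [h1]
  refine prod_le_prod_of_subset_of_one_le ?_ ?_ ?_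
  · intro p hp
    rw [Ps, mem_filter, mem_Ioc] at hp ⊢
    exact ⟨⟨by omega, hp.1.2⟩, hp.2⟩
  · intro p hp
    rw [Ps, mem_filter, mem_Ioc] at hp
    have : (2 : ℝ) ≤ p := by exact_mod_cast hp.2.two_le
    have : (0 : ℝ) ≤ 1 / ((p : ℝ) - 1) := div_nonneg zero_le_one (by linarith)
    linarith
  · intro p hp _
    rw [Ps, mem_filter, mem_Ioc] at hp
    have : (2 : ℝ) ≤ p := by exact_mod_cast hp.2.two_le
    have : (0 : ℝ) ≤ 1 / ((p : ℝ) - 1) := div_nonneg zero_le_one (by linarith)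
    linarith

/-- the weight of a set of primes -/
noncomputable def wt (S : Finset ℕ) : ℝ := ∏ p ∈ S, (1 / ((p : ℝ) - 1))

lemma wt_nonneg {z N : ℕ} {S : Finset ℕ} (hS : S ⊆ Ps z N) : 0 ≤ wt S := by
  refine prod_nonneg fun p hp => ?_
  have hp := hS hp
  rw [Ps, mem_filter] at hp
  have : (2 : ℝ) ≤ p := by exact_mod_cast hp.2.two_le
  exact div_nonneg zero_le_one (by linarith)

lemma inner_eq (z U2 u : ℕ) (hu0 : 1 ≤ u) (hu : u ≤ U2) :
    (∏ p ∈ u.primeFactors.filter (fun p => z < p), (1 - 1 / (p : ℝ))⁻¹) - 1 =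
      ∑ S ∈ (Ps z U2).powerset.erase ∅, if (∏ p ∈ S, p) ∣ u then wt S else 0 := by
  set F := u.primeFactors.filter (fun p => z < p) with hF
  have hFP : F ⊆ Ps z U2 := by
    intro p hp
    rw [hF, mem_filter, Nat.mem_primeFactors] at hp
    rw [Ps, mem_filter, mem_Ioc]
    exact ⟨⟨hp.2, (Nat.le_of_dvd hu0 hp.1.2.1).trans hu⟩, hp.1.1⟩
  have h1 : (∏ p ∈ F, (1 - 1 / (p : ℝ))⁻¹) = ∑ S ∈ F.powerset, wt S := by
    have h0 : ∑ S ∈ F.powerset, wt S = ∏ p ∈ F, (1 + 1 / ((p : ℝ) - 1)) := by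
      rw [Finset.prod_one_add]; rfl
    rw [h0]
    refine prod_congr rfl ?_
    intro p hp
    have hp := hFP hp
    rw [Ps, mem_filter, mem_Ioc] at hp
    have : (2 : ℝ) ≤ p := by exact_mod_cast hp.2.two_le
    have h0 : (p : ℝ) ≠ 0 := by linarith
    have h1 : (p : ℝ) - 1 ≠ 0 := by linarith
    field_simp
    ring
  have h2 : ∑ S ∈ F.powerset, wt S = ∑ S ∈ (Ps z U2).powerset, if (∏ p ∈ S, p) ∣ u then wt S else 0 := by
    rw [← sum_filter]
    refine sum_congr ?_ fun _ _ => rfl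
    ext S
    rw [mem_filter, mem_powerset, mem_powerset]
    constructor
    · intro hS
      refine ⟨hS.trans hFP, ?_⟩
      refine Finset.prod_primes_dvd _ ?_ ?_
      · intro p hp
        have := hFP (hS hp)
        rw [Ps, mem_filter] at this
        exact this.2.prime
      · intro p hp
        have := hS hp
        rw [hF, mem_filter, Nat.mem_primeFactors] at this
        exact this.1.2.1
    · rintro ⟨hS, hd⟩ p hp
      have h3 := hS hp
      rw [Ps, mem_filter, mem_Ioc] at h3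
      rw [hF, mem_filter, Nat.mem_primeFactors]
      exact ⟨⟨h3.2, (dvd_prod_of_mem _ hp).trans hd, by omega⟩, h3.1.1⟩
  rw [h1, h2, ← Finset.add_sum_erase _ _ (empty_mem_powerset (Ps z U2))]
  simp [wt]

theorem t_HZ (h : S_MER) : S_HZ := by
  obtain ⟨C, hC1, -, hM⟩ := h
  refine ⟨C + 2, by linarith, ?_⟩
  intro z q u0 U1 U2 hz hq hpq hU hU2
  have hq0 : (0 : ℝ) < q := by exact_mod_cast hq
  have hz0 : (0 : ℝ) < z := by exact_mod_cast (by omega : 0 < z)
  have hUr : (U1 : ℝ) ≤ U2 := by exact_mod_cast hU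
  have hlog : 0 ≤ Real.log U2 := Real.log_natCast_nonneg _
  -- the sum
  have e1 : ∑ u ∈ (Ioc U1 U2).filter (fun u => u ≡ u0 [MOD q]),
      ((∏ p ∈ u.primeFactors.filter (fun p => z < p), (1 - 1 / (p : ℝ))⁻¹) - 1) =
      ∑ S ∈ (Ps z U2).powerset.erase ∅,
        wt S * (((Ioc U1 U2).filter (fun u => u ≡ u0 [MOD q] ∧ (∏ p ∈ S, p) ∣ u)).card : ℝ) := by
    rw [sum_congr rfl (g := fun u => ∑ S ∈ (Ps z U2).powerset.erase ∅,
      if (∏ p ∈ S, p) ∣ u then wt S else 0)]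
    · rw [sum_comm]
      refine sum_congr rfl fun S _ => ?_
      rw [← sum_filter, filter_filter, sum_const, nsmul_eq_mul, mul_comm]
    · intro u hu
      rw [mem_filter, mem_Ioc] at hu
      exact inner_eq z U2 u (by omega) hu.1.2
  rw [e1]
  have hprime : ∀ S ⊆ Ps z U2, ∀ p ∈ S, p.Prime ∧ z < p := by
    intro S hS p hp
    have := hS hp
    rw [Ps, mem_filter, mem_Ioc] at this
    exact ⟨this.2, this.1.1⟩
  have hpos : ∀ S ⊆ Ps z U2, 0 < ∏ p ∈ S, p := by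
    intro S hS
    exact prod_pos fun p hp => (hprime S hS p hp).1.pos
  have e2 : ∑ S ∈ (Ps z U2).powerset.erase ∅,
        wt S * (((Ioc U1 U2).filter (fun u => u ≡ u0 [MOD q] ∧ (∏ p ∈ S, p) ∣ u)).card : ℝ) ≤
      ∑ S ∈ (Ps z U2).powerset.erase ∅,
        (((U2 : ℝ) - U1) / q * (∏ p ∈ S, (1 / ((p : ℝ) * (p - 1)))) + wt S) := by
    refine sum_le_sum fun S hS => ?_
    have hS' : S ⊆ Ps z U2 := mem_powerset.1 (mem_of_mem_erase hS)
    have hcop : Nat.Coprime q (∏ p ∈ S, p) := by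
      refine Nat.Coprime.prod_right fun p hp => ?_
      rw [Nat.coprime_comm, (hprime S hS' p hp).1.coprime_iff_not_dvd]
      intro hd
      have := hpq p (hprime S hS' p hp).1 hd
      have := (hprime S hS' p hp).2
      omega
    have h1 := card_le q (∏ p ∈ S, p) hq (hpos S hS') hcop U1 U2 u0 hU
    have h2 := mul_le_mul_of_nonneg_left h1 (wt_nonneg hS')
    refine h2.trans (le_of_eq ?_)
    have h3 : (∏ p ∈ S, (1 / ((p : ℝ) * (p - 1)))) = wt S / ((∏ p ∈ S, p : ℕ) : ℝ) := by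
      rw [wt, Nat.cast_prod, ← prod_div_distrib]
      refine prod_congr rfl fun p hp => ?_
      rw [div_div, mul_comm]
    rw [h3]
    have hP : ((∏ p ∈ S, p : ℕ) : ℝ) ≠ 0 := by
      have := hpos S hS'
      exact_mod_cast this.ne'
    field_simp
  refine e2.trans ?_
  rw [sum_add_distrib, ← mul_sum]
  have e3 : ∑ S ∈ (Ps z U2).powerset.erase ∅, (∏ p ∈ S, (1 / ((p : ℝ) * (p - 1)))) ≤ 2 / z := by
    by_cases hzU : z ≤ U2
    · have h1 := prod_bound z hz U2 hzU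
      rw [Finset.prod_one_add, ← Finset.add_sum_erase _ _ (empty_mem_powerset (Ps z U2))] at h1
      simp only [prod_empty] at h1
      linarith
    · have : Ps z U2 = ∅ := by
        rw [Ps, Ioc_eq_empty (by omega), filter_empty]
      rw [this]
      simp only [powerset_empty, erase_singleton, sum_empty]
      positivity
  have e4 : ∑ S ∈ (Ps z U2).powerset.erase ∅, wt S ≤ C * Real.log U2 := by
    have h1 : ∑ S ∈ (Ps z U2).powerset.erase ∅, wt S ≤ ∑ S ∈ (Ps z U2).powerset, wt S := by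
      refine sum_le_sum_of_subset_of_nonneg (erase_subset _ _) fun S hS _ => ?_
      exact wt_nonneg (mem_powerset.1 hS)
    have h2 : ∑ S ∈ (Ps z U2).powerset, wt S = ∏ p ∈ Ps z U2, (1 + 1 / ((p : ℝ) - 1)) := by
      rw [Finset.prod_one_add]; rfl
    rw [h2] at h1
    exact h1.trans ((prod_V z U2).trans (hM U2 hU2).2)
  have e5 : ((U2 : ℝ) - U1) / q * ∑ S ∈ (Ps z U2).powerset.erase ∅, (∏ p ∈ S, (1 / ((p : ℝ) * (p - 1)))) ≤
      ((U2 : ℝ) - U1) / q * (2 / z) :=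
    mul_le_mul_of_nonneg_left e3 (div_nonneg (by linarith) hq0.le)
  have e6 : ((U2 : ℝ) - U1) / q * (2 / z) = 2 * (((U2 : ℝ) - U1) / (z * q)) := by
    field_simp
  have e7 : 0 ≤ ((U2 : ℝ) - U1) / (z * q) := div_nonneg (by linarith) (by positivity)
  nlinarith [mul_nonneg (by linarith : (0 : ℝ) ≤ C) e7]

end Pool.Agent.N340.QL
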